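import Mathlib

/-!
# Non-isometric metric spaces with isometric Euclidean squares

The rational numbers `ℚ` and the set `√2 ℚ` of their multiples by `√2`, with the metric of the
real line, are not isometric, but their squares with the Euclidean product metric are: the rotation
of the plane by 45 degrees maps `ℚ × ℚ` onto `√2 ℚ × √2 ℚ`.
-/

set_option autoImplicit false

namespace Pool.Agent.Results.MP_1231ed_gt.SquareRootsNotUnique

/-- The rational numbers, as a subset of the real line. -/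
def Rat1 : Set ℝ := {x | ∃ q : ℚ, x = (q : ℝ)}

/-- The multiples of `√2` by rational numbers, as a subset of the real line. -/
def Rat2 : Set ℝ := {x | ∃ q : ℚ, x = Real.sqrt 2 * (q : ℝ)}

lemma rot_mem {x y : ℝ} (hx : x ∈ Rat1) (hy : y ∈ Rat1) :
    (x - y) / Real.sqrt 2 ∈ Rat2 ∧ (x + y) / Real.sqrt 2 ∈ Rat2 := by
  obtain ⟨a, rfl⟩ := hx
  obtain ⟨b, rfl⟩ := hy
  have h2 : Real.sqrt 2 * Real.sqrt 2 = 2 := Real.mul_self_sqrt (by norm_num)
  have h0 : Real.sqrt 2 ≠ 0 := by positivity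
  refine ⟨⟨(a - b) / 2, ?_⟩, ⟨(a + b) / 2, ?_⟩⟩
  · push_cast
    rw [div_eq_iff h0]
    linear_combination (-((a : ℝ) - b) / 2) * h2
  · push_cast
    rw [div_eq_iff h0]
    linear_combination (-((a : ℝ) + b) / 2) * h2

lemma rot_inv_mem {u v : ℝ} (hu : u ∈ Rat2) (hv : v ∈ Rat2) :
    (u + v) / Real.sqrt 2 ∈ Rat1 ∧ (v - u) / Real.sqrt 2 ∈ Rat1 := by
  obtain ⟨a, rfl⟩ := hu
  obtain ⟨b, rfl⟩ := hv
  have h0 : Real.sqrt 2 ≠ 0 := by positivity
  refine ⟨⟨a + b, ?_⟩, ⟨b - a, ?_⟩⟩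
  · push_cast
    rw [div_eq_iff h0]
    ring
  · push_cast
    rw [div_eq_iff h0]
    ring

/-- The rotation of the plane by 45 degrees, as a bijection of the squares. -/
noncomputable def rot : Rat1 × Rat1 ≃ Rat2 × Rat2 where
  toFun p := (⟨_, (rot_mem p.1.2 p.2.2).1⟩, ⟨_, (rot_mem p.1.2 p.2.2).2⟩)
  invFun p := (⟨_, (rot_inv_mem p.1.2 p.2.2).1⟩, ⟨_, (rot_inv_mem p.1.2 p.2.2).2⟩)
  left_inv p := by
    have h2 : Real.sqrt 2 * Real.sqrt 2 = 2 := Real.mul_self_sqrt (by norm_num)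
    have h0 : Real.sqrt 2 ≠ 0 := by positivity
    ext
    · simp only
      field_simp
      linear_combination (-(p.1 : ℝ)) * h2
    · simp only
      field_simp
      linear_combination (-(p.2 : ℝ)) * h2
  right_inv p := by
    have h2 : Real.sqrt 2 * Real.sqrt 2 = 2 := Real.mul_self_sqrt (by norm_num)
    have h0 : Real.sqrt 2 ≠ 0 := by positivity
    ext
    · simp only
      field_simp
      linear_combination (-(p.1 : ℝ)) * h2
    · simp only
      field_simp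
      linear_combination (-(p.2 : ℝ)) * h2

theorem result : ∃ A B : Set ℝ,
    (∃ φ : A × A ≃ B × B, ∀ p q : A × A,
      Real.sqrt (dist (φ p).1 (φ q).1 ^ 2 + dist (φ p).2 (φ q).2 ^ 2) =
        Real.sqrt (dist p.1 q.1 ^ 2 + dist p.2 q.2 ^ 2)) ∧
    ¬ ∃ f : A ≃ B, ∀ x y : A, dist (f x) (f y) = dist x y := by
  refine ⟨Rat1, Rat2, ⟨rot, fun p q => ?_⟩, ?_⟩
  · congr 1
    have h2 : Real.sqrt 2 ^ 2 = 2 := Real.sq_sqrt (by norm_num)
    have h0 : Real.sqrt 2 ≠ 0 := by positivity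
    simp only [Subtype.dist_eq, Real.dist_eq, sq_abs, rot, Equiv.coe_fn_mk]
    rw [← sub_div, ← sub_div, div_pow, div_pow, h2]
    ring
  · rintro ⟨f, hf⟩
    have h := hf ⟨1, 1, by simp⟩ ⟨0, 0, by simp⟩
    obtain ⟨a, ha⟩ := (f ⟨1, 1, by simp⟩).2
    obtain ⟨b, hb⟩ := (f ⟨0, 0, by simp⟩).2
    rw [Subtype.dist_eq, Subtype.dist_eq, ha, hb, Real.dist_eq, Real.dist_eq] at h
    have h' : Real.sqrt 2 * |(a : ℝ) - b| = 1 := by
      rw [← mul_sub, abs_mul, abs_of_nonneg (Real.sqrt_nonneg 2)] at h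
      simpa using h
    refine (irrational_sqrt_two.mul_ratCast (q := |a - b|) ?_) ⟨1, ?_⟩
    · intro h0
      have : |(a : ℝ) - b| = 0 := by exact_mod_cast congrArg (Rat.cast : ℚ → ℝ) h0
      rw [this] at h'
      simp at h'
    · rw [Rat.cast_one, ← h']
      push_cast
      rfl

end Pool.Agent.Results.MP_1231ed_gt.SquareRootsNotUnique
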